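import Pool.Agent.X163.PC.Basic

/-! # Covering by one residue class for each prime near `N ^ α`: almost all windows

Choose one residue class for each prime `N ^ α ≤ p < 2 N ^ α`, in an arbitrary way. The problem asks
how few integers of `{1, …, N}` can lie in the chosen classes. We show that the number is
asymptotically the largest possible one, `(1 + o(1)) N ∑ 1 / p`, in almost all windows of length `N`
inside every interval of length at least `4 N ^ (2 α)`, and at least `N ^ (1 - δ - o(1))` in almost all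
windows inside every interval of length `N ^ (2 α - δ)`. More generally, the same holds for almost all
choices on every line `b + l c` in the space of the choices (`c p ≠ 0` for all `p`), for instance for
almost all dilates `l c` of every choice `c` without zero classes.

Proof. Bonferroni's inequality or the Cauchy-Schwarz inequality, and the Chinese remainder theorem:
two classes modulo `p` and `q` contain the same integer for a proportion of about `1 / (p q)` of the
`l`. The sum of the reciprocals `1 / p` is `O(1 / log N)`. -/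

set_option autoImplicit false

open Finset Filter Topology

namespace Pool.Agent.Results.MP_bb5cc8_nt.AlmostAllWindows

open Pool.Agent.H170R2.PC Pool.Agent.X163.PC

/-- The sum of the reciprocals of the primes `N ^ α ≤ p < 2 N ^ α`. -/
noncomputable def recipSum (α : ℝ) (N : ℕ) : ℝ := ∑ p ∈ PR α N, 1 / (p : ℝ)

/-- The number of the integers in the window `(x, x + N]` which lie in the chosen class modulo some
prime `N ^ α ≤ p < 2 N ^ α`. -/
noncomputable def windowCount (α : ℝ) (N : ℕ) (b : (p : ℕ) → ZMod p) (x : ℤ) : ℕ :=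
  Set.ncard {y : ℤ | x < y ∧ y ≤ x + N ∧ ∃ p : ℕ, InRange α N p ∧ (y : ZMod p) = b p}

namespace Aux

/-- the number of the chosen classes through `n` -/
noncomputable def mult (Q : Finset ℕ) (a : (p : ℕ) → ZMod p) (n : ℕ) : ℕ :=
  (Q.filter (fun p => (n : ZMod p) = a p)).card

/-- the covered integers -/
noncomputable def cov (Q : Finset ℕ) (N : ℕ) (a : (p : ℕ) → ZMod p) : Finset ℕ :=
  (Icc 1 N).filter (fun n => ∃ p ∈ Q, (n : ZMod p) = a p)

theorem coveredCount_eq (α : ℝ) (N : ℕ) (a : (p : ℕ) → ZMod p) :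
    coveredCount α N a = (cov (PR α N) N a).card := by
  unfold coveredCount cov
  rw [← Set.ncard_coe_finset]
  congr 1
  ext n
  simp only [Set.mem_ofPred_eq, coe_filter, mem_Icc]
  constructor
  · rintro ⟨h1, h2, p, hp, h3⟩
    exact ⟨⟨h1, h2⟩, p, mem_PR.2 hp, h3⟩
  · rintro ⟨⟨h1, h2⟩, p, hp, h3⟩
    exact ⟨h1, h2, p, mem_PR.1 hp, h3⟩

theorem windowCount_eq (α : ℝ) (N : ℕ) (b : (p : ℕ) → ZMod p) (x : ℤ) :
    windowCount α N b x = coveredCount α N (fun p => b p + (x : ZMod p) * (-1)) := by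
  unfold windowCount coveredCount
  have hinj : Function.Injective (fun n : ℕ => x + (n : ℤ)) := by
    intro m n h
    simp only at h
    omega
  rw [← Set.ncard_image_of_injective _ hinj]
  congr 1
  ext y
  simp only [Set.mem_ofPred_eq, Set.mem_image]
  constructor
  · rintro ⟨h1, h2, p, hp, h3⟩
    refine ⟨(y - x).toNat, ⟨by omega, by omega, p, hp, ?_⟩, by omega⟩
    have e : (((y - x).toNat : ℕ) : ZMod p) = ((y - x : ℤ) : ZMod p) := by
      have : ((y - x).toNat : ℤ) = y - x := Int.toNat_of_nonneg (by omega)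
      rw [← this]
      push_cast
      rfl
    rw [e]
    push_cast
    rw [h3]
    ring
  · rintro ⟨n, ⟨h1, h2, p, hp, h3⟩, rfl⟩
    refine ⟨by omega, by omega, p, hp, ?_⟩
    push_cast
    rw [h3]
    ring

theorem sum_mult (Q : Finset ℕ) (N : ℕ) (a : (p : ℕ) → ZMod p) :
    ∑ n ∈ Icc 1 N, mult Q a n = ∑ p ∈ Q, ((Icc 1 N).filter (fun n : ℕ => (n : ZMod p) = a p)).card := by
  unfold mult
  simp only [card_filter]
  exact sum_comm

theorem bonferroni (Q : Finset ℕ) (N : ℕ) (a : (p : ℕ) → ZMod p) :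
    2 * ∑ n ∈ Icc 1 N, (mult Q a n : ℤ) - ∑ n ∈ Icc 1 N, ((mult Q a n : ℤ) * (mult Q a n) - mult Q a n)
      ≤ 2 * ((cov Q N a).card : ℤ) := by
  have h1 : ((cov Q N a).card : ℤ) = ∑ n ∈ Icc 1 N, if (∃ p ∈ Q, (n : ZMod p) = a p) then (1 : ℤ) else 0 := by
    unfold cov
    rw [card_filter]
    push_cast
    rfl
  rw [h1, mul_sum, mul_sum, ← sum_sub_distrib]
  refine sum_le_sum fun n _ => ?_
  by_cases h : ∃ p ∈ Q, (n : ZMod p) = a p
  · rw [if_pos h]
    have : 0 ≤ ((mult Q a n : ℤ) - 1) * ((mult Q a n : ℤ) - 2) := by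
      rcases lt_or_ge (mult Q a n) 2 with h2 | h2
      · have h3 : mult Q a n = 0 ∨ mult Q a n = 1 := by omega
        rcases h3 with h3 | h3 <;> rw [h3] <;> norm_num
      · have : (2 : ℤ) ≤ mult Q a n := by exact_mod_cast h2
        exact mul_nonneg (by linarith) (by linarith)
    nlinarith
  · rw [if_neg h]
    have : mult Q a n = 0 := by
      unfold mult
      rw [card_eq_zero, filter_eq_empty_iff]
      intro p hp h2
      exact h ⟨p, hp, h2⟩
    rw [this]
    norm_num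

theorem count_lower {p : ℕ} (hp : 0 < p) (N : ℕ) (r : ZMod p) :
    (N : ℝ) / p - 1 ≤ (((Icc 1 N).filter (fun n : ℕ => (n : ZMod p) = r)).card : ℝ) := by
  have := NeZero.of_pos hp
  have h1 : (range (N / p)).image (fun j => (p - (-r).val) + p * j) ⊆
      (Icc 1 N).filter (fun n : ℕ => (n : ZMod p) = r) := by
    intro z hz
    obtain ⟨j, hj, rfl⟩ := mem_image.1 hz
    rw [mem_range] at hj
    have h2 := ZMod.val_lt (-r)
    rw [mem_filter, mem_Icc]
    refine ⟨⟨by omega, ?_⟩, ?_⟩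
    · have h3 : p * (j + 1) ≤ p * (N / p) := Nat.mul_le_mul_left _ hj
      have h4 := Nat.mul_div_le N p
      have h5 : p - (-r).val ≤ p := Nat.sub_le _ _
      nlinarith
    · push_cast [Nat.cast_sub h2.le]
      rw [ZMod.natCast_zmod_val, ZMod.natCast_self]
      ring
  have h2 : ((range (N / p)).image (fun j => (p - (-r).val) + p * j)).card = N / p := by
    rw [card_image_of_injective, card_range]
    intro i j hij
    simp only at hij
    exact Nat.eq_of_mul_eq_mul_left hp (by omega)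
  have h3 := card_le_card h1
  rw [h2] at h3
  have h4 : (N : ℝ) / p < (N / p : ℕ) + 1 := by
    rw [div_lt_iff₀ (by exact_mod_cast hp)]
    have := Nat.lt_div_mul_add hp (a := N)
    have h5 : (N : ℝ) < ((N / p * p + p : ℕ) : ℝ) := by exact_mod_cast this
    push_cast at h5
    linarith
  have h5 : ((N / p : ℕ) : ℝ) ≤ (((Icc 1 N).filter (fun n : ℕ => (n : ZMod p) = r)).card : ℝ) := by
    exact_mod_cast h3
  linarith

theorem count_upper {p : ℕ} (hp : 0 < p) (N : ℕ) (r : ZMod p) :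
    (((Icc 1 N).filter (fun n : ℕ => (n : ZMod p) = r)).card : ℝ) ≤ (N : ℝ) / p + 1 := by
  have h1 := card_le_of_dvd hp 1 N
    (((Icc 1 N).filter (fun n : ℕ => (n : ZMod p) = r)).image (fun n : ℕ => (n : ℤ))) ?_ ?_
  · rwa [card_image_of_injective _ Nat.cast_injective] at h1
  · intro z hz
    obtain ⟨n, hn, rfl⟩ := mem_image.1 hz
    have := mem_Icc.1 (mem_filter.1 hn).1
    rw [mem_Ico]
    constructor <;> omega
  · intro x hx y hy
    obtain ⟨m, hm, rfl⟩ := mem_image.1 hx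
    obtain ⟨n, hn, rfl⟩ := mem_image.1 hy
    rw [← ZMod.intCast_zmod_eq_zero_iff_dvd]
    push_cast
    rw [(mem_filter.1 hm).2, (mem_filter.1 hn).2, sub_self]

/-- two classes contain the same integer for few `l` -/
theorem pair_count {p q : ℕ} (hp : p.Prime) (hq : q.Prime) (hpq : p ≠ q) (b₁ c₁ : ZMod p)
    (b₂ c₂ : ZMod q) (h1 : c₁ ≠ 0) (h2 : c₂ ≠ 0) (s : ℤ) (L n : ℕ) :
    (((Ico s (s + L)).filter (fun l : ℤ => (n : ZMod p) = b₁ + l * c₁ ∧
      (n : ZMod q) = b₂ + l * c₂)).card : ℝ) ≤ (L : ℝ) / ((p * q : ℕ) : ℝ) + 1 := by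
  have := Fact.mk hp
  have := Fact.mk hq
  refine card_le_of_dvd (Nat.mul_pos hp.pos hq.pos) s L _ (filter_subset _ _) ?_
  intro x hx y hy
  have hx' := (mem_filter.1 hx).2
  have hy' := (mem_filter.1 hy).2
  have e1 : (p : ℤ) ∣ x - y := by
    rw [← ZMod.intCast_zmod_eq_zero_iff_dvd]
    have : ((x - y : ℤ) : ZMod p) * c₁ = 0 := by
      push_cast
      have h3 := hx'.1.symm.trans hy'.1
      linear_combination h3
    exact (mul_eq_zero.1 this).resolve_right h1
  have e2 : (q : ℤ) ∣ x - y := by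
    rw [← ZMod.intCast_zmod_eq_zero_iff_dvd]
    have : ((x - y : ℤ) : ZMod q) * c₂ = 0 := by
      push_cast
      have h3 := hx'.2.symm.trans hy'.2
      linear_combination h3
    exact (mul_eq_zero.1 this).resolve_right h2
  have hc : IsCoprime (p : ℤ) (q : ℤ) := by
    rw [Nat.isCoprime_iff_coprime]
    exact (Nat.coprime_primes hp hq).2 hpq
  push_cast
  exact hc.mul_dvd e1 e2

theorem mult_sq (Q : Finset ℕ) (a : (p : ℕ) → ZMod p) (n : ℕ) :
    (mult Q a n : ℤ) * (mult Q a n) - mult Q a n =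
      ∑ z ∈ Q.offDiag, if ((n : ZMod z.1) = a z.1 ∧ (n : ZMod z.2) = a z.2) then (1 : ℤ) else 0 := by
  classical
  have h1 : ((Q.filter (fun p => (n : ZMod p) = a p)).offDiag.card : ℤ) =
      (mult Q a n : ℤ) * (mult Q a n) - mult Q a n := by
    rw [offDiag_card]
    unfold mult
    have := Nat.le_mul_self (Q.filter (fun p => (n : ZMod p) = a p)).card
    rw [Nat.cast_sub this]
    push_cast
    rfl
  rw [← h1, ← Finset.sum_filter, sum_const, nsmul_eq_mul, mul_one]
  congr 2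
  ext z
  simp only [mem_offDiag, mem_filter]
  tauto

/-- the second moment -/
theorem second_moment (Q : Finset ℕ) (hQ : ∀ p ∈ Q, p.Prime) (N : ℕ) (b c : (p : ℕ) → ZMod p)
    (hc : ∀ p ∈ Q, c p ≠ 0) (s : ℤ) (L : ℕ) :
    ∑ l ∈ Ico s (s + L), ∑ n ∈ Icc 1 N, (((mult Q (fun p => b p + l * c p) n : ℝ) *
      (mult Q (fun p => b p + l * c p) n) - mult Q (fun p => b p + l * c p) n)) ≤
      N * (L * (∑ p ∈ Q, 1 / (p : ℝ)) ^ 2 + (Q.card : ℝ) ^ 2) := by
  classical
  have h1 : ∀ (l : ℤ) (n : ℕ), ((mult Q (fun p => b p + l * c p) n : ℝ) *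
      (mult Q (fun p => b p + l * c p) n) - mult Q (fun p => b p + l * c p) n) =
      ∑ z ∈ Q.offDiag, if ((n : ZMod z.1) = b z.1 + l * c z.1 ∧ (n : ZMod z.2) = b z.2 + l * c z.2)
        then (1 : ℝ) else 0 := by
    intro l n
    have := mult_sq Q (fun p => b p + l * c p) n
    have h2 := congrArg (fun z : ℤ => (z : ℝ)) this
    push_cast at h2
    exact h2
  simp only [h1]
  rw [sum_comm]
  have h2 : ∀ n ∈ Icc 1 N, ∑ l ∈ Ico s (s + L), ∑ z ∈ Q.offDiag,
      (if ((n : ZMod z.1) = b z.1 + l * c z.1 ∧ (n : ZMod z.2) = b z.2 + l * c z.2)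
        then (1 : ℝ) else 0) ≤ L * (∑ p ∈ Q, 1 / (p : ℝ)) ^ 2 + (Q.card : ℝ) ^ 2 := by
    intro n _
    rw [sum_comm]
    have h3 : ∀ z ∈ Q.offDiag, ∑ l ∈ Ico s (s + L),
        (if ((n : ZMod z.1) = b z.1 + l * c z.1 ∧ (n : ZMod z.2) = b z.2 + l * c z.2)
          then (1 : ℝ) else 0) ≤ L * ((1 / (z.1 : ℝ)) * (1 / (z.2 : ℝ))) + 1 := by
      intro z hz
      rw [mem_offDiag] at hz
      rw [← Finset.sum_filter, sum_const, nsmul_eq_mul, mul_one]
      refine (pair_count (hQ _ hz.1) (hQ _ hz.2.1) hz.2.2 _ _ _ _ (hc _ hz.1) (hc _ hz.2.1) s L n).trans ?_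
      have h7 : (L : ℝ) * ((1 / (z.1 : ℝ)) * (1 / (z.2 : ℝ))) =
          (L : ℝ) / ((z.1 * z.2 : ℕ) : ℝ) := by
        push_cast
        field_simp
      rw [h7]
    refine (sum_le_sum h3).trans ?_
    rw [sum_add_distrib, ← mul_sum]
    have h4 : ∑ z ∈ Q.offDiag, ((1 / (z.1 : ℝ)) * (1 / (z.2 : ℝ))) ≤ (∑ p ∈ Q, 1 / (p : ℝ)) ^ 2 := by
      rw [sq, sum_mul_sum, ← sum_product']
      refine sum_le_sum_of_subset_of_nonneg ?_ fun _ _ _ => by positivity
      intro z hz
      rw [mem_offDiag] at hz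
      exact mem_product.2 ⟨hz.1, hz.2.1⟩
    have h5 : (∑ z ∈ Q.offDiag, (1 : ℝ)) ≤ (Q.card : ℝ) ^ 2 := by
      rw [sum_const, nsmul_eq_mul, mul_one, offDiag_card, sq]
      exact_mod_cast Nat.sub_le _ _
    have h6 := mul_le_mul_of_nonneg_left h4 (Nat.cast_nonneg L : (0 : ℝ) ≤ L)
    linarith
  refine (sum_le_sum h2).trans ?_
  rw [sum_const, Nat.card_Icc, nsmul_eq_mul]
  have : ((N + 1 - 1 : ℕ) : ℝ) = N := by norm_num
  rw [this]

theorem card_le_recip {α : ℝ} {N : ℕ} (hN : 1 ≤ N) :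
    ((PR α N).card : ℝ) ≤ 2 * (N : ℝ) ^ α * recipSum α N := by
  have h1 := PR_card_le (α := α) hN
  have hN0 : (0 : ℝ) < N := by exact_mod_cast hN
  have h2 : (0 : ℝ) < (N : ℝ) ^ (1 - α) := by positivity
  have h3 : (N : ℝ) = (N : ℝ) ^ α * (N : ℝ) ^ (1 - α) := by
    rw [← Real.rpow_add hN0]
    simp
  have h4 : 2 * ((N : ℝ) * ∑ p ∈ PR α N, 1 / (p : ℝ)) =
      (2 * (N : ℝ) ^ α * recipSum α N) * (N : ℝ) ^ (1 - α) := by
    unfold recipSum
    nth_rewrite 1 [h3]
    ring
  rw [h4] at h1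
  exact le_of_mul_le_mul_right h1 h2

theorem recip_pos {α : ℝ} {N : ℕ} (h : (0 : ℝ) < (PR α N).card) : 0 < recipSum α N := by
  have hne : (PR α N).Nonempty := by
    rw [← card_pos]
    exact_mod_cast h
  refine sum_pos (fun p hp => ?_) hne
  have : (0 : ℝ) < p := by exact_mod_cast (mem_PR.1 hp).1.pos
  positivity

theorem sum_mult_lower {α : ℝ} (N : ℕ) (a : (p : ℕ) → ZMod p) :
    N * recipSum α N - (PR α N).card ≤ ∑ n ∈ Icc 1 N, (mult (PR α N) a n : ℝ) := by
  have h5 := sum_mult (PR α N) N a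
  have h6 : (∑ n ∈ Icc 1 N, (mult (PR α N) a n : ℝ)) =
      ∑ p ∈ PR α N, (((Icc 1 N).filter (fun n : ℕ => (n : ZMod p) = a p)).card : ℝ) := by
    exact_mod_cast h5
  unfold recipSum
  rw [h6, mul_sum, ← nsmul_one (PR α N).card, ← sum_const, ← sum_sub_distrib]
  refine sum_le_sum fun p hp => ?_
  rw [mul_one_div]
  exact count_lower (mem_PR.1 hp).1.pos N _

theorem cauchy (Q : Finset ℕ) (N : ℕ) (a : (p : ℕ) → ZMod p) :
    (∑ n ∈ Icc 1 N, (mult Q a n : ℝ)) ^ 2 ≤
      ((cov Q N a).card : ℝ) * ∑ n ∈ Icc 1 N, (mult Q a n : ℝ) ^ 2 := by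
  have h1 : ∑ n ∈ Icc 1 N, (mult Q a n : ℝ) = ∑ n ∈ cov Q N a, (mult Q a n : ℝ) := by
    refine (sum_subset (filter_subset _ _) fun n hn hn' => ?_).symm
    have : mult Q a n = 0 := by
      unfold mult
      rw [card_eq_zero, filter_eq_empty_iff]
      intro p hp h2
      exact hn' (mem_filter.2 ⟨hn, p, hp, h2⟩)
    rw [this, Nat.cast_zero]
  have h2 : ∑ n ∈ cov Q N a, (mult Q a n : ℝ) ^ 2 ≤ ∑ n ∈ Icc 1 N, (mult Q a n : ℝ) ^ 2 :=
    sum_le_sum_of_subset_of_nonneg (filter_subset _ _) fun _ _ _ => by positivity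
  rw [h1]
  refine (sq_sum_le_card_mul_sum_sq (s := cov Q N a) (f := fun n => (mult Q a n : ℝ))).trans ?_
  exact mul_le_mul_of_nonneg_left h2 (Nat.cast_nonneg _)

/-- few `l` have a large second moment -/
theorem few_bad {α : ℝ} {N : ℕ} (hN : 1 ≤ N) {b c : (p : ℕ) → ZMod p}
    (hc : ∀ p, InRange α N p → c p ≠ 0) (s : ℤ) (L : ℕ) {K : ℝ} (_hK : 0 < K) (B : Finset ℤ)
    (hB : B ⊆ Ico s (s + L))
    (h : ∀ l ∈ B, K ≤ ∑ n ∈ Icc 1 N, (((mult (PR α N) (fun p => b p + l * c p) n : ℝ) *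
      (mult (PR α N) (fun p => b p + l * c p) n) - mult (PR α N) (fun p => b p + l * c p) n))) :
    (B.card : ℝ) * K ≤ N * recipSum α N ^ 2 * (L + 4 * (N : ℝ) ^ (2 * α)) := by
  have hN0 : (0 : ℝ) < N := by exact_mod_cast hN
  have hm := second_moment (PR α N) (fun p hp => (mem_PR.1 hp).1) N b c
    (fun p hp => hc p (mem_PR.1 hp)) s L
  calc (B.card : ℝ) * K = ∑ l ∈ B, K := by rw [sum_const, nsmul_eq_mul]
    _ ≤ _ := sum_le_sum h
    _ ≤ _ := by
        refine sum_le_sum_of_subset_of_nonneg hB fun l _ _ => sum_nonneg fun n _ => ?_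
        have : (mult (PR α N) (fun p => b p + l * c p) n : ℝ) ≤
            (mult (PR α N) (fun p => b p + l * c p) n : ℝ) * (mult (PR α N) (fun p => b p + l * c p) n) := by
          exact_mod_cast Nat.le_mul_self _
        linarith
    _ ≤ _ := hm
    _ ≤ _ := by
        have h1 := card_le_recip (α := α) hN
        have h2 : ((PR α N).card : ℝ) ^ 2 ≤ 4 * (N : ℝ) ^ (2 * α) * recipSum α N ^ 2 := by
          have h3 : (N : ℝ) ^ (2 * α) = (N : ℝ) ^ α * (N : ℝ) ^ α := by
            rw [← Real.rpow_add hN0]; ring_nf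
          rw [h3]
          calc ((PR α N).card : ℝ) ^ 2 ≤ (2 * (N : ℝ) ^ α * recipSum α N) ^ 2 :=
                pow_le_pow_left₀ (Nat.cast_nonneg _) h1 2
            _ = _ := by ring
        have h4 : (L : ℝ) * (∑ p ∈ PR α N, 1 / (p : ℝ)) ^ 2 + ((PR α N).card : ℝ) ^ 2 ≤
            recipSum α N ^ 2 * (L + 4 * (N : ℝ) ^ (2 * α)) := by
          have h5 : (L : ℝ) * (∑ p ∈ PR α N, 1 / (p : ℝ)) ^ 2 = L * recipSum α N ^ 2 := rfl
          rw [h5]
          linarith
        calc (N : ℝ) * ((L : ℝ) * (∑ p ∈ PR α N, 1 / (p : ℝ)) ^ 2 + ((PR α N).card : ℝ) ^ 2)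
            ≤ N * (recipSum α N ^ 2 * (L + 4 * (N : ℝ) ^ (2 * α))) :=
              mul_le_mul_of_nonneg_left h4 hN0.le
          _ = _ := by ring

theorem recip_lower {α η : ℝ} (h0 : 0 < α) (hη : 0 < η) : ∀ᶠ N : ℕ in atTop,
    (N : ℝ) ^ (1 - η) ≤ N * recipSum α N := by
  obtain ⟨κ, hκ⟩ : ∃ κ, κ = min (η / 2) α := ⟨_, rfl⟩
  have hκ0 : 0 < κ := by rw [hκ]; exact lt_min (by linarith) h0
  have hκ1 : κ ≤ η / 2 := by rw [hκ]; exact min_le_left _ _
  have hpow : Tendsto (fun N : ℕ => (N : ℝ) ^ (η / 2)) atTop atTop :=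
    (tendsto_rpow_atTop (by linarith)).comp tendsto_natCast_atTop_atTop
  filter_upwards [PR_lower h0 hκ0 (by rw [hκ]; exact min_le_right _ _), eventually_ge_atTop 1,
    hpow.eventually_ge_atTop 2] with N hN hN1 hN2
  have hN0 : (0 : ℝ) < N := by exact_mod_cast hN1
  have hN1' : (1 : ℝ) ≤ N := by exact_mod_cast hN1
  have h1 := PR_card_le (α := α) hN1
  have h2 : (N : ℝ) ^ (α - κ) * (N : ℝ) ^ (1 - α) ≤ 2 * (N * recipSum α N) :=
    (mul_le_mul_of_nonneg_right hN (by positivity)).trans h1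
  rw [← Real.rpow_add hN0, show α - κ + (1 - α) = 1 - κ by ring] at h2
  have h3 : (N : ℝ) ^ (1 - η / 2) ≤ (N : ℝ) ^ (1 - κ) :=
    Real.rpow_le_rpow_of_exponent_le hN1' (by linarith)
  have h4 : (N : ℝ) ^ (1 - η / 2) = (N : ℝ) ^ (1 - η) * (N : ℝ) ^ (η / 2) := by
    rw [← Real.rpow_add hN0]; ring_nf
  have h5 : (N : ℝ) ^ (1 - η) * 2 ≤ (N : ℝ) ^ (1 - η) * (N : ℝ) ^ (η / 2) :=
    mul_le_mul_of_nonneg_left hN2 (by positivity)
  linarith

/-- the main estimate -/
theorem main {α η : ℝ} (h0 : 0 < α) (h1 : α < 1) (hη : 0 < η) : ∀ᶠ N : ℕ in atTop,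
    ∀ b c : (p : ℕ) → ZMod p, (∀ p, InRange α N p → c p ≠ 0) →
    ∀ (s : ℤ) (L : ℕ), 4 * (N : ℝ) ^ (2 * α) ≤ L →
      (Set.ncard {l : ℤ | s ≤ l ∧ l < s + L ∧
        (coveredCount α N (fun p => b p + l * c p) : ℝ) < (1 - η) * (N * recipSum α N)} : ℝ) ≤ η * L := by
  have hpow : Tendsto (fun N : ℕ => (N : ℝ) ^ (1 - α)) atTop atTop :=
    (tendsto_rpow_atTop (by linarith)).comp tendsto_natCast_atTop_atTop
  filter_upwards [PR_recip_small h0 (show 0 < η ^ 2 / 2 by positivity),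
    hpow.eventually_ge_atTop (4 / η), eventually_ge_atTop 1,
    PR_lower h0 (show 0 < α / 2 by linarith) (by linarith)] with N hσ hN hN1 hPR
  intro b c hc s L hL
  have hN0 : (0 : ℝ) < N := by exact_mod_cast hN1
  have hcard : (0 : ℝ) < (PR α N).card := by
    refine lt_of_lt_of_le ?_ hPR
    positivity
  have hσ0 := recip_pos hcard
  obtain ⟨σ, hσd⟩ : ∃ σ, σ = recipSum α N := ⟨_, rfl⟩
  have hσe : recipSum α N = ∑ p ∈ PR α N, 1 / (p : ℝ) := rfl
  rw [← hσe, ← hσd] at hσ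
  rw [← hσd] at hσ0
  classical
  -- the bad `l`
  obtain ⟨B, hB⟩ : ∃ B : Finset ℤ, B = (Ico s (s + L)).filter (fun l : ℤ =>
      (coveredCount α N (fun p => b p + l * c p) : ℝ) < (1 - η) * (N * σ)) := ⟨_, rfl⟩
  have hset : {l : ℤ | s ≤ l ∧ l < s + L ∧
        (coveredCount α N (fun p => b p + l * c p) : ℝ) < (1 - η) * (N * recipSum α N)} = (B : Set ℤ) := by
    ext l
    rw [hB, ← hσd]
    simp only [Set.mem_ofPred_eq, coe_filter, mem_Ico]
    tauto
  rw [hset, Set.ncard_coe_finset]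
  have hNσ : 0 < N * σ := by positivity
  have hsum := few_bad (α := α) hN1 hc s L (K := η * (N * σ)) (by positivity) B
    (by rw [hB]; exact filter_subset _ _) (fun l hl => by
    rw [hB, mem_filter] at hl
    by_contra hcon
    push Not at hcon
    have h2 := bonferroni (PR α N) N (fun p => b p + l * c p)
    have h3 : 2 * ∑ n ∈ Icc 1 N, (mult (PR α N) (fun p => b p + l * c p) n : ℝ) -
        ∑ n ∈ Icc 1 N, (((mult (PR α N) (fun p => b p + l * c p) n : ℝ) *
        (mult (PR α N) (fun p => b p + l * c p) n) - mult (PR α N) (fun p => b p + l * c p) n)) ≤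
        2 * ((cov (PR α N) N (fun p => b p + l * c p)).card : ℝ) := by
      exact_mod_cast h2
    rw [← coveredCount_eq] at h3
    have h4 := sum_mult_lower (α := α) N (fun p => b p + l * c p)
    rw [← hσd] at h4
    have h7 := PR_card_le (α := α) hN1
    rw [← hσe, ← hσd] at h7
    have h8 : ((PR α N).card : ℝ) * (4 / η) ≤ 2 * (N * σ) :=
      (mul_le_mul_of_nonneg_left hN hcard.le).trans h7
    have h9 : ((PR α N).card : ℝ) ≤ η / 2 * (N * σ) := by
      have : ((PR α N).card : ℝ) * (4 / η) * (η / 4) ≤ 2 * (N * σ) * (η / 4) :=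
        mul_le_mul_of_nonneg_right h8 (by positivity)
      have e : ((PR α N).card : ℝ) * (4 / η) * (η / 4) = (PR α N).card := by field_simp
      linarith
    linarith [hl.2])
  rw [← hσd] at hsum
  have hL0 : (0 : ℝ) ≤ L := Nat.cast_nonneg _
  have h10 : (B.card : ℝ) * η ≤ 2 * L * σ := by
    have : (B.card : ℝ) * η * (N * σ) ≤ 2 * L * σ * (N * σ) := by
      calc (B.card : ℝ) * η * (N * σ) = (B.card : ℝ) * (η * (N * σ)) := by ring
        _ ≤ N * σ ^ 2 * (L + 4 * (N : ℝ) ^ (2 * α)) := hsum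
        _ ≤ N * σ ^ 2 * (L + L) := mul_le_mul_of_nonneg_left (by linarith) (by positivity)
        _ = _ := by ring
    exact le_of_mul_le_mul_right this hNσ
  have h11 : (B.card : ℝ) * η ≤ η * L * η := by
    calc (B.card : ℝ) * η ≤ 2 * L * σ := h10
      _ ≤ 2 * L * (η ^ 2 / 2) := mul_le_mul_of_nonneg_left hσ (by positivity)
      _ = η * L * η := by ring
  exact le_of_mul_le_mul_right h11 hη

/-- short intervals of parameters -/
theorem short {α β η : ℝ} (h0 : 0 < α) (h1 : α < 1) (hβ : β ≤ 2 * α) (hη : 0 < η) :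
    ∀ᶠ N : ℕ in atTop,
    ∀ b c : (p : ℕ) → ZMod p, (∀ p, InRange α N p → c p ≠ 0) →
    ∀ (s : ℤ) (L : ℕ), (N : ℝ) ^ β ≤ L →
      (Set.ncard {l : ℤ | s ≤ l ∧ l < s + L ∧
        (coveredCount α N (fun p => b p + l * c p) : ℝ) < (N : ℝ) ^ (1 - 2 * α + β - η)} : ℝ) ≤
        η * L := by
  have hpow : Tendsto (fun N : ℕ => (N : ℝ) ^ (1 - α)) atTop atTop :=
    (tendsto_rpow_atTop (by linarith)).comp tendsto_natCast_atTop_atTop
  have hpow2 : Tendsto (fun N : ℕ => (N : ℝ) ^ (η / 2)) atTop atTop :=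
    (tendsto_rpow_atTop (by linarith)).comp tendsto_natCast_atTop_atTop
  filter_upwards [PR_recip_small h0 (show (0 : ℝ) < 1 by norm_num),
    hpow.eventually_ge_atTop 4, eventually_ge_atTop 1,
    PR_lower h0 (show 0 < α / 2 by linarith) (by linarith),
    hpow2.eventually_ge_atTop (2 + 20 / η), recip_lower (α := α) h0 (show 0 < η / 2 by linarith)]
    with N hσ hN hN1 hPR hN2 hrec
  intro b c hc s L hL
  have hN0 : (0 : ℝ) < N := by exact_mod_cast hN1
  have hN1' : (1 : ℝ) ≤ N := by exact_mod_cast hN1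
  have hcard : (0 : ℝ) < (PR α N).card := by
    refine lt_of_lt_of_le ?_ hPR
    positivity
  have hσ0 := recip_pos hcard
  obtain ⟨σ, hσd⟩ : ∃ σ, σ = recipSum α N := ⟨_, rfl⟩
  have hσe : recipSum α N = ∑ p ∈ PR α N, 1 / (p : ℝ) := rfl
  rw [← hσe, ← hσd] at hσ
  rw [← hσd] at hσ0 hrec
  have hL1 : (0 : ℝ) < L := lt_of_lt_of_le (by positivity) hL
  obtain ⟨G, hG⟩ : ∃ G, G = (N : ℝ) ^ (2 * α - β) := ⟨_, rfl⟩
  have hG1 : 1 ≤ G := by rw [hG]; exact Real.one_le_rpow hN1' (by linarith)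
  have hGL : (N : ℝ) ^ (2 * α) ≤ G * L := by
    calc (N : ℝ) ^ (2 * α) = G * (N : ℝ) ^ β := by
          rw [hG, ← Real.rpow_add hN0]; ring_nf
      _ ≤ G * L := mul_le_mul_of_nonneg_left hL (by linarith)
  obtain ⟨K, hK⟩ : ∃ K, K = N * σ * (5 * G / η) := ⟨_, rfl⟩
  have hK0 : 0 < K := by rw [hK]; positivity
  classical
  obtain ⟨B, hB⟩ : ∃ B : Finset ℤ, B = (Ico s (s + L)).filter (fun l : ℤ =>
      (coveredCount α N (fun p => b p + l * c p) : ℝ) < (N : ℝ) ^ (1 - 2 * α + β - η)) := ⟨_, rfl⟩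
  have hset : {l : ℤ | s ≤ l ∧ l < s + L ∧
        (coveredCount α N (fun p => b p + l * c p) : ℝ) < (N : ℝ) ^ (1 - 2 * α + β - η)} =
        (B : Set ℤ) := by
    ext l
    rw [hB]
    simp only [Set.mem_ofPred_eq, coe_filter, mem_Ico]
    tauto
  rw [hset, Set.ncard_coe_finset]
  have hsum := few_bad (α := α) hN1 hc s L hK0 B
    (by rw [hB]; exact filter_subset _ _) (fun l hl => by
    rw [hB, mem_filter] at hl
    by_contra hcon
    push Not at hcon
    obtain ⟨u, hu⟩ : ∃ u, u = ∑ n ∈ Icc 1 N, (mult (PR α N) (fun p => b p + l * c p) n : ℝ) := ⟨_, rfl⟩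
    have h2 := cauchy (PR α N) N (fun p => b p + l * c p)
    rw [← coveredCount_eq, ← hu] at h2
    have h3 : ∑ n ∈ Icc 1 N, (mult (PR α N) (fun p => b p + l * c p) n : ℝ) ^ 2 ≤ u + K := by
      have h4 : ∑ n ∈ Icc 1 N, (mult (PR α N) (fun p => b p + l * c p) n : ℝ) ^ 2 =
          u + ∑ n ∈ Icc 1 N, (((mult (PR α N) (fun p => b p + l * c p) n : ℝ) *
        (mult (PR α N) (fun p => b p + l * c p) n) - mult (PR α N) (fun p => b p + l * c p) n)) := by
        rw [hu, ← sum_add_distrib]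
        refine sum_congr rfl fun n _ => by ring
      rw [h4]
      linarith
    have h4 := sum_mult_lower (α := α) N (fun p => b p + l * c p)
    rw [← hσd, ← hu] at h4
    have h7 := PR_card_le (α := α) hN1
    rw [← hσe, ← hσd] at h7
    have h8 : ((PR α N).card : ℝ) * 4 ≤ 2 * (N * σ) :=
      (mul_le_mul_of_nonneg_left hN hcard.le).trans h7
    have hNσ : 0 < N * σ := by positivity
    have hu0 : N * σ / 2 ≤ u := by linarith
    have hu1 : 0 < u := by linarith
    have hKu : K ≤ u * (10 * G / η) := by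
      rw [hK]
      have : N * σ * (5 * G / η) = N * σ / 2 * (10 * G / η) := by ring
      rw [this]
      exact mul_le_mul_of_nonneg_right hu0 (by positivity)
    have hG0 : 0 < G := by linarith
    -- u ≤ S (1 + 10 G / η)
    have h9 : u ≤ (coveredCount α N (fun p => b p + l * c p) : ℝ) * (1 + 10 * G / η) := by
      have h10 : u * u ≤ (coveredCount α N (fun p => b p + l * c p) : ℝ) * (1 + 10 * G / η) * u := by
        calc u * u = u ^ 2 := by ring
          _ ≤ _ := h2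
          _ ≤ (coveredCount α N (fun p => b p + l * c p) : ℝ) * (u + K) :=
              mul_le_mul_of_nonneg_left h3 (Nat.cast_nonneg _)
          _ ≤ (coveredCount α N (fun p => b p + l * c p) : ℝ) * (u + u * (10 * G / η)) :=
              mul_le_mul_of_nonneg_left (by linarith) (Nat.cast_nonneg _)
          _ = _ := by ring
      exact le_of_mul_le_mul_right h10 hu1
    have h10 : 1 + 10 * G / η ≤ G * (1 + 10 / η) := by
      have : G * (1 + 10 / η) = G + 10 * G / η := by ring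
      rw [this]
      linarith
    have h11 : (N : ℝ) ^ (1 - η / 2) / 2 ≤ u := by linarith
    have h12 : (N : ℝ) ^ (1 - η / 2) ≤
        (coveredCount α N (fun p => b p + l * c p) : ℝ) * (G * (2 + 20 / η)) := by
      have h13 : (coveredCount α N (fun p => b p + l * c p) : ℝ) * (1 + 10 * G / η) ≤
          (coveredCount α N (fun p => b p + l * c p) : ℝ) * (G * (1 + 10 / η)) :=
        mul_le_mul_of_nonneg_left h10 (Nat.cast_nonneg _)
      have e : (coveredCount α N (fun p => b p + l * c p) : ℝ) * (G * (2 + 20 / η)) =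
          2 * ((coveredCount α N (fun p => b p + l * c p) : ℝ) * (G * (1 + 10 / η))) := by ring
      rw [e]
      linarith
    have h14 : (N : ℝ) ^ (1 - η / 2) ≤
        (coveredCount α N (fun p => b p + l * c p) : ℝ) * (G * (N : ℝ) ^ (η / 2)) :=
      h12.trans (mul_le_mul_of_nonneg_left (mul_le_mul_of_nonneg_left hN2 hG0.le) (Nat.cast_nonneg _))
    have h15 : (coveredCount α N (fun p => b p + l * c p) : ℝ) * (G * (N : ℝ) ^ (η / 2)) <
        (N : ℝ) ^ (1 - 2 * α + β - η) * (G * (N : ℝ) ^ (η / 2)) :=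
      mul_lt_mul_of_pos_right hl.2 (by positivity)
    have h16 : (N : ℝ) ^ (1 - 2 * α + β - η) * (G * (N : ℝ) ^ (η / 2)) = (N : ℝ) ^ (1 - η / 2) := by
      rw [hG, ← Real.rpow_add hN0, ← Real.rpow_add hN0]
      ring_nf
    linarith)
  rw [← hσd] at hsum
  have h10 : (B.card : ℝ) * K ≤ η * L * K := by
    calc (B.card : ℝ) * K ≤ N * σ ^ 2 * (L + 4 * (N : ℝ) ^ (2 * α)) := hsum
      _ ≤ N * σ ^ 2 * (G * L + 4 * (G * L)) := by
          refine mul_le_mul_of_nonneg_left ?_ (by positivity)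
          have : (L : ℝ) ≤ G * L := le_mul_of_one_le_left hL1.le hG1
          linarith
      _ = (N * σ) * (5 * G * L) * σ := by ring
      _ ≤ (N * σ) * (5 * G * L) * 1 := by
          refine mul_le_mul_of_nonneg_left hσ ?_
          have : 0 ≤ G := by linarith
          positivity
      _ = η * L * K := by
          rw [hK]
          field_simp
  exact le_of_mul_le_mul_right h10 hK0

theorem upper {α η : ℝ} (h1 : α < 1) (hη : 0 < η) : ∀ᶠ N : ℕ in atTop,
    ∀ a : (p : ℕ) → ZMod p, (coveredCount α N a : ℝ) ≤ (1 + η) * (N * recipSum α N) := by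
  have hpow : Tendsto (fun N : ℕ => (N : ℝ) ^ (1 - α)) atTop atTop :=
    (tendsto_rpow_atTop (by linarith)).comp tendsto_natCast_atTop_atTop
  filter_upwards [eventually_ge_atTop 1, hpow.eventually_ge_atTop (2 / η)] with N hN1 hN2 a
  have h2 : ((cov (PR α N) N a).card : ℝ) ≤ ∑ p ∈ PR α N, ((N : ℝ) / p + 1) := by
    have h3 : cov (PR α N) N a ⊆ (PR α N).biUnion (fun p => (Icc 1 N).filter (fun n : ℕ => (n : ZMod p) = a p)) := by
      intro n hn
      unfold cov at hn
      rw [mem_filter] at hn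
      obtain ⟨hn1, p, hp, h4⟩ := hn
      exact mem_biUnion.2 ⟨p, hp, mem_filter.2 ⟨hn1, h4⟩⟩
    have h4 := (card_le_card h3).trans card_biUnion_le
    calc ((cov (PR α N) N a).card : ℝ) ≤
        ((∑ p ∈ PR α N, ((Icc 1 N).filter (fun n : ℕ => (n : ZMod p) = a p)).card : ℕ) : ℝ) := by
          exact_mod_cast h4
      _ = ∑ p ∈ PR α N, (((Icc 1 N).filter (fun n : ℕ => (n : ZMod p) = a p)).card : ℝ) := by
          push_cast; rfl
      _ ≤ _ := sum_le_sum fun p hp => count_upper (mem_PR.1 hp).1.pos N _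
  rw [coveredCount_eq]
  have h5 : (∑ p ∈ PR α N, ((N : ℝ) / p + 1)) = N * recipSum α N + (PR α N).card := by
    rw [sum_add_distrib, sum_const, nsmul_eq_mul, mul_one]
    unfold recipSum
    rw [mul_sum]
    congr 1
    refine sum_congr rfl fun p _ => by rw [mul_one_div]
  have h6 := PR_card_le (α := α) hN1
  have h7 : ((PR α N).card : ℝ) * (2 / η) ≤ 2 * (N * recipSum α N) :=
    (mul_le_mul_of_nonneg_left hN2 (Nat.cast_nonneg _)).trans h6
  have h8 : ((PR α N).card : ℝ) ≤ η * (N * recipSum α N) := by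
    have : ((PR α N).card : ℝ) * (2 / η) * (η / 2) ≤ 2 * (N * recipSum α N) * (η / 2) :=
      mul_le_mul_of_nonneg_right h7 (by positivity)
    have e : ((PR α N).card : ℝ) * (2 / η) * (η / 2) = (PR α N).card := by field_simp
    linarith
  linarith

end Aux

/-- Let `0 < α < 1`, `β ≤ 2 α` and `η > 0`. For all large `N`: every choice covers at most
`(1 + η) N ∑ 1 / p` integers of `{1, …, N}`, and this number is at least `N ^ (1 - η)`. On every line
`b + l c` of choices (with `c p ≠ 0` for all primes `p` in the range) and for every interval of at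
least `4 N ^ (2 α)` integers `l`, all but a proportion `η` of the choices cover at least
`(1 - η) N ∑ 1 / p` integers; in every interval of at least `N ^ β` integers `l`, all but a proportion
`η` cover at least `N ^ (1 - 2 α + β - η)` integers. The same holds for the numbers of the integers in
the chosen classes in the windows `(x, x + N]`, for every choice. -/
theorem result (α : ℝ) (h0 : 0 < α) (h1 : α < 1) (β : ℝ) (hβ : β ≤ 2 * α) (η : ℝ) (hη : 0 < η) :
    ∃ N₀ : ℕ, ∀ N : ℕ, N₀ ≤ N →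
      (∀ a : (p : ℕ) → ZMod p, (coveredCount α N a : ℝ) ≤ (1 + η) * (N * recipSum α N)) ∧
      (N : ℝ) ^ (1 - η) ≤ N * recipSum α N ∧
      (∀ b c : (p : ℕ) → ZMod p, (∀ p, InRange α N p → c p ≠ 0) → ∀ (s : ℤ) (L : ℕ),
        (4 * (N : ℝ) ^ (2 * α) ≤ L →
          (Set.ncard {l : ℤ | s ≤ l ∧ l < s + L ∧ (coveredCount α N (fun p => b p + l * c p) : ℝ) <
            (1 - η) * (N * recipSum α N)} : ℝ) ≤ η * L) ∧
        ((N : ℝ) ^ β ≤ L →
          (Set.ncard {l : ℤ | s ≤ l ∧ l < s + L ∧ (coveredCount α N (fun p => b p + l * c p) : ℝ) <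
            (N : ℝ) ^ (1 - 2 * α + β - η)} : ℝ) ≤ η * L)) ∧
      (∀ b : (p : ℕ) → ZMod p, ∀ (s : ℤ) (L : ℕ),
        (4 * (N : ℝ) ^ (2 * α) ≤ L →
          (Set.ncard {x : ℤ | s ≤ x ∧ x < s + L ∧ (windowCount α N b x : ℝ) <
            (1 - η) * (N * recipSum α N)} : ℝ) ≤ η * L) ∧
        ((N : ℝ) ^ β ≤ L →
          (Set.ncard {x : ℤ | s ≤ x ∧ x < s + L ∧ (windowCount α N b x : ℝ) <
            (N : ℝ) ^ (1 - 2 * α + β - η)} : ℝ) ≤ η * L)) := by
  obtain ⟨N₀, hN₀⟩ := eventually_atTop.1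
    ((Aux.upper h1 hη).and ((Aux.recip_lower (α := α) h0 hη).and
      ((Aux.main h0 h1 hη).and (Aux.short h0 h1 hβ hη))))
  refine ⟨N₀, fun N hN => ?_⟩
  obtain ⟨h2, h3, h4, h5⟩ := hN₀ N hN
  refine ⟨h2, h3, fun b c hc s L => ⟨fun hL => h4 b c hc s L hL, fun hL => h5 b c hc s L hL⟩,
    fun b s L => ?_⟩
  have h6 : ∀ p, InRange α N p → ((fun _ => -1 : (p : ℕ) → ZMod p) p) ≠ 0 := by
    intro p hp
    have := Fact.mk hp.1
    exact neg_ne_zero.2 one_ne_zero
  simp only [Aux.windowCount_eq]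
  exact ⟨fun hL => h4 b (fun _ => -1) h6 s L hL, fun hL => h5 b (fun _ => -1) h6 s L hL⟩

end Pool.Agent.Results.MP_bb5cc8_nt.AlmostAllWindows
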