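import Mathlib
import Pool.Agent.X37.RO.Fin

set_option autoImplicit false

/-!
# Covering by one residue class for each prime near `N ^ α`: almost every rotation

Let `b` be an arbitrary choice of a residue class `b p` modulo every prime `p`. For a real number
`θ` the rotated choice is `b p + ⌊θ p⌋`. We show that the set of the `θ` for which the rotated
choice covers fewer than `N ^ (1 - ε)` integers of `{1, …, N}` for infinitely many `N` has Hausdorff
dimension at most `1 - ε / α`; in particular almost every rotation of every choice satisfies the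
lower bound `N ^ (1 - o(1))`.

Proof. For `θ` on a grid of about `4 N ^ α` points, the number of the coincidences `n ≡ a(p)`,
`n ≡ a(q)` is on average at most `N ^ (1 + o(1))`: if `n` lies in both rotated classes then
`n (1 / p - 1 / q)` is near a fixed number modulo one.
-/

namespace Pool.Agent.Results.MP_bb5cc8_nt.AlmostEveryRotation

open Filter Topology MeasureTheory
open Pool.Agent.H170R2.PC (InRange coveredCount)

/-- The rotated choice `p ↦ b p + ⌊θ p⌋`. -/
noncomputable def rotated (b : (p : ℕ) → ZMod p) (θ : ℝ) (p : ℕ) : ZMod p :=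
  b p + ((⌊θ * p⌋ : ℤ) : ZMod p)

/-- The set of the `θ` for which the rotated choice covers fewer than `N ^ (1 - ε)` integers of
`{1, …, N}` for infinitely many `N`. -/
noncomputable def badSet (α : ℝ) (b : (p : ℕ) → ZMod p) (ε : ℝ) : Set ℝ :=
  {θ : ℝ | ∃ᶠ N : ℕ in atTop, (coveredCount α N (rotated b θ) : ℝ) < (N : ℝ) ^ (1 - ε)}

/-- **Almost every rotation of every choice.** -/
theorem result (α : ℝ) (h0 : 0 < α) (h1 : α < 1) (b : (p : ℕ) → ZMod p) :
    (∀ ε : ℝ, 0 < ε → ε ≤ α → dimH (badSet α b ε) ≤ ENNReal.ofReal (1 - ε / α)) ∧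
    (∀ᵐ θ : ℝ, ∀ ε : ℝ, 0 < ε → ∃ N₀ : ℕ, ∀ N ≥ N₀,
      (N : ℝ) ^ (1 - ε) ≤ (coveredCount α N (rotated b θ) : ℝ)) := by
  refine ⟨fun ε hε hεα => Pool.Agent.X37.RO.dim_rot h0 h1 hε hεα b, ?_⟩
  filter_upwards [Pool.Agent.X37.RO.ae_rot h0 h1 b] with θ hθ ε hε
  exact eventually_atTop.1 (hθ ε hε)

end Pool.Agent.Results.MP_bb5cc8_nt.AlmostEveryRotation
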