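import Pool.Agent.X163.PC.Basic
import Pool.Agent.X163.PC.Rare

/-! # Covering by one residue class for each prime near `N ^ α`: bad choices are rare

A choice of residues is bad if fewer than `N ^ (1 - ε)` integers of `{1, …, N}` lie in the chosen
classes. We show that the number of bad choices is at most `M ^ (1 - c ε / ((c - 1) α) + δ)`, where `M`
is the number of all choices, for every `δ > 0`, every `c` in `(1.66958684…, 2]` and all large `N`. Here
`c / (c - 1)` is `2` for `c = 2` and close to `2.4934` at the other end of the interval. The same method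
works if only the residues for the primes of an arbitrary set `Q` of at least `N ^ (α - κ)` primes in
the range are counted (`κ < ε`), whatever the residues for the other primes are; and the moduli need
not be primes.

Proof. A bad choice covers at most `O(N ^ (α - ε))` integers of some window of length `O(N ^ α)`, and
there are few such sets. For a given set `T` of covered integers in the window, let `g q` be the number
of the possible residues modulo `q`. By the sums-differences inequality with multiplicities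
(`MP_169869_co.FibreMultiplicity`) `∑ (g q) ^ (c - 1) ≤ |T| ^ c`, and the product of the `g q` is
bounded by the inequality of the arithmetic and geometric means. -/

set_option autoImplicit false

open Finset Filter Topology

namespace Pool.Agent.Results.MP_bb5cc8_nt.RareBadChoices

open Pool.Agent.H170R2.PC Pool.Agent.X163.PC Pool.Agent.X163.PC.Rare

namespace Aux

theorem rpow_lower {X q θ : ℝ} (hX : 0 < X) (h1 : X ≤ q) (h2 : q < 2 * X) :
    (2 : ℝ) ^ (-|θ|) * X ^ θ ≤ q ^ θ := by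
  have hq : q = X * (q / X) := by field_simp
  have hr1 : 1 ≤ q / X := (one_le_div hX).2 h1
  have hr2 : q / X ≤ 2 := by
    rw [div_le_iff₀ hX]
    linarith
  rw [hq, Real.mul_rpow hX.le (by linarith), mul_comm]
  refine mul_le_mul_of_nonneg_left ?_ (by positivity)
  rcases le_or_gt 0 θ with h | h
  · calc (2 : ℝ) ^ (-|θ|) ≤ 1 := Real.rpow_le_one_of_one_le_of_nonpos (by norm_num)
          (neg_nonpos.2 (abs_nonneg _))
      _ ≤ (q / X) ^ θ := Real.one_le_rpow hr1 h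
  · rw [abs_of_neg h, neg_neg]
    exact Real.rpow_le_rpow_of_nonpos (by linarith) hr2 h.le

theorem rare {k : ℕ} {c : ℝ} (hc1 : 1 < c) (hc2 : c ≤ 2) (hSD : SD k c)
    {α κ ε δ : ℝ} (h0 : 0 < α) (h1 : α < 1) (hκε : κ < ε) (hκα : κ < α) (hδ : 0 < δ) :
    ∀ᶠ N : ℕ in atTop, ∀ Q : Finset ℕ, (∀ q ∈ Q, (N : ℝ) ^ α ≤ q ∧ (q : ℝ) < 2 * (N : ℝ) ^ α) →
      (N : ℝ) ^ (α - κ) ≤ (Q.card : ℝ) →
      (((choices Q).filter (fun a => (hits Q N a : ℝ) < (N : ℝ) ^ (1 - ε))).card : ℝ) ≤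
        (∏ q ∈ Q, (q : ℝ)) ^ (1 - (c * ε - κ) / ((c - 1) * α) + δ) := by
  have hT : ∀ s : ℝ, 0 < s → Tendsto (fun N : ℕ => (N : ℝ) ^ s) atTop atTop := fun s hs =>
    (tendsto_rpow_atTop hs).comp tendsto_natCast_atTop_atTop
  obtain ⟨θ, hθ⟩ : ∃ θ, θ = 1 - (c * ε - κ) / ((c - 1) * α) + δ := ⟨_, rfl⟩
  rw [← hθ]
  have hk0 : 0 < k := by
    obtain ⟨j, hj, -⟩ := hSD {(0, 0)} (singleton_nonempty _)
    omega
  have hkR : (1 : ℝ) ≤ k := by exact_mod_cast hk0
  have hc0 : 0 < c - 1 := by linarith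
  filter_upwards [eventually_ge_atTop (4 * k + 1), (hT (1 - α) (by linarith)).eventually_ge_atTop (4 * k),
    (hT (α * δ / 2) (by positivity)).eventually_ge_atTop ((8 * (k : ℝ)) ^ (c / (c - 1)) * 2 ^ |θ|),
    (hT (ε - κ) (by linarith)).eventually_ge_atTop (64 * k / (α * δ)),
    (hT (α - κ) (by linarith)).eventually_ge_atTop (4 / (α * δ))] with N hN9 hE2 hE4 hE5 hE6
  intro Q hQ hk
  have hN0 : (0 : ℝ) < N := by exact_mod_cast (by omega : 0 < N)
  have hN1 : (1 : ℝ) ≤ N := by exact_mod_cast (by omega : 1 ≤ N)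
  obtain ⟨X, hX⟩ : ∃ X, X = (N : ℝ) ^ α := ⟨_, rfl⟩
  have hX1 : 1 ≤ X := by rw [hX]; exact Real.one_le_rpow hN1 h0.le
  have hXN : X ≤ N := by
    rw [hX]
    calc (N : ℝ) ^ α ≤ (N : ℝ) ^ (1 : ℝ) := Real.rpow_le_rpow_of_exponent_le hN1 h1.le
      _ = N := Real.rpow_one _
  have hq0 : (0 : ℝ) < Q.card := lt_of_lt_of_le (by positivity) hk
  have hne : Q.Nonempty := by
    rw [← card_pos]
    exact_mod_cast hq0
  -- the window length
  obtain ⟨w, hw⟩ : ∃ w, w = 2 * k * ⌈X⌉₊ := ⟨_, rfl⟩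
  have hwl : 2 * k * X ≤ (w : ℝ) := by
    rw [hw]
    push_cast
    exact mul_le_mul_of_nonneg_left (Nat.le_ceil X) (by positivity)
  have hwu : (w : ℝ) ≤ 4 * k * X := by
    rw [hw]
    push_cast
    have h2 := (Nat.ceil_lt_add_one (by linarith : 0 ≤ X)).le
    have h3 : (⌈X⌉₊ : ℝ) ≤ 2 * X := by linarith
    calc 2 * (k : ℝ) * (⌈X⌉₊ : ℝ) ≤ 2 * k * (2 * X) := mul_le_mul_of_nonneg_left h3 (by positivity)
      _ = 4 * k * X := by ring
  have hw0 : (0 : ℝ) < w := lt_of_lt_of_le (by positivity) hwl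
  have hwQ : ∀ q ∈ Q, k * q ≤ w := by
    intro q hq
    have h2 := (hQ q hq).2
    rw [← hX] at h2
    have : ((k * q : ℕ) : ℝ) ≤ w := by
      push_cast
      calc (k : ℝ) * q ≤ k * (2 * X) := mul_le_mul_of_nonneg_left h2.le (by positivity)
        _ = 2 * k * X := by ring
        _ ≤ w := hwl
    exact_mod_cast this
  -- the number of windows
  obtain ⟨m, hm⟩ : ∃ m, m = N / w := ⟨_, rfl⟩
  have hXX : (N : ℝ) ^ (1 - α) * X = N := by
    rw [hX, ← Real.rpow_add hN0]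
    simp
  have hNw : (N : ℝ) ^ (1 - α) / (4 * k) ≤ N / w := by
    rw [div_le_div_iff₀ (by positivity) hw0]
    calc (N : ℝ) ^ (1 - α) * w ≤ (N : ℝ) ^ (1 - α) * (4 * k * X) :=
          mul_le_mul_of_nonneg_left hwu (by positivity)
      _ = ((N : ℝ) ^ (1 - α) * X) * (4 * k) := by ring
      _ = N * (4 * k) := by rw [hXX]
  have hm1 : (N : ℝ) ^ (1 - α) / (8 * k) ≤ m := by
    have h2 : (N : ℝ) / w < m + 1 := by
      rw [hm, div_lt_iff₀ hw0]
      have := Nat.lt_div_mul_add (by exact_mod_cast hw0 : 0 < w) (a := N)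
      have h5 : (N : ℝ) < ((N / w * w + w : ℕ) : ℝ) := by exact_mod_cast this
      push_cast at h5 ⊢
      linarith
    have h3 : 1 ≤ (N : ℝ) / w := le_trans ((one_le_div (by positivity)).2 hE2) hNw
    have h4 : (0 : ℝ) < m := by linarith
    have h5 : (1 : ℝ) ≤ m := by
      have : 0 < m := by exact_mod_cast h4
      exact_mod_cast this
    have h6 : (N : ℝ) ^ (1 - α) / (8 * k) = (N : ℝ) ^ (1 - α) / (4 * k) / 2 := by
      rw [div_div]
      ring_nf
    rw [h6]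
    linarith
  have hm0 : (0 : ℝ) < m := lt_of_lt_of_le (by positivity) hm1
  have hmw : m * w ≤ N := by rw [hm]; exact Nat.div_mul_le_self N w
  have hmN : (m : ℝ) ≤ N := by
    rw [hm]
    exact_mod_cast Nat.div_le_self N w
  -- the threshold
  obtain ⟨t, ht⟩ : ∃ t, t = ⌊(N : ℝ) ^ (1 - ε) / m⌋₊ := ⟨_, rfl⟩
  have hxt : (N : ℝ) ^ (1 - ε) < m * (t + 1) := by
    have := Nat.lt_floor_add_one ((N : ℝ) ^ (1 - ε) / m)
    rw [← ht, div_lt_iff₀ hm0] at this
    linarith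
  have htu : (t : ℝ) ≤ 8 * k * (N : ℝ) ^ (α - ε) := by
    have h2 : (t : ℝ) ≤ (N : ℝ) ^ (1 - ε) / m := by
      rw [ht]
      exact Nat.floor_le (by positivity)
    refine h2.trans ?_
    rw [div_le_iff₀ hm0]
    have h3 : (N : ℝ) ^ (1 - ε) = (N : ℝ) ^ (α - ε) * (N : ℝ) ^ (1 - α) := by
      rw [← Real.rpow_add hN0]; ring_nf
    rw [h3]
    calc (N : ℝ) ^ (α - ε) * (N : ℝ) ^ (1 - α) =
          8 * k * (N : ℝ) ^ (α - ε) * ((N : ℝ) ^ (1 - α) / (8 * k)) := by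
          field_simp
      _ ≤ 8 * k * (N : ℝ) ^ (α - ε) * m := mul_le_mul_of_nonneg_left hm1 (by positivity)
  have hub := union_bound hc1 hc2 hSD Q hne N m w t hwQ hmw _ hxt
  refine hub.trans ?_
  -- the number of the small sets
  have h2t : ((2 * t + 1 : ℕ) : ℝ) ≤ α * δ / 2 * Q.card := by
    push_cast
    have e1 : (N : ℝ) ^ (α - κ) = (N : ℝ) ^ (ε - κ) * (N : ℝ) ^ (α - ε) := by
      rw [← Real.rpow_add hN0]; ring_nf
    have e2 : 16 * k * (N : ℝ) ^ (α - ε) ≤ α * δ / 4 * (N : ℝ) ^ (α - κ) := by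
      rw [e1]
      calc 16 * k * (N : ℝ) ^ (α - ε) = α * δ / 4 * (64 * k / (α * δ) * (N : ℝ) ^ (α - ε)) := by
            field_simp
            ring
        _ ≤ _ := mul_le_mul_of_nonneg_left (mul_le_mul_of_nonneg_right hE5 (by positivity))
            (by positivity)
    have e3 : 1 ≤ α * δ / 4 * (N : ℝ) ^ (α - κ) := by
      calc (1 : ℝ) = α * δ / 4 * (4 / (α * δ)) := by field_simp
        _ ≤ _ := mul_le_mul_of_nonneg_left hE6 (by positivity)
    have e4 : α * δ / 2 * (N : ℝ) ^ (α - κ) ≤ α * δ / 2 * Q.card :=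
      mul_le_mul_of_nonneg_left hk (by positivity)
    linarith
  have hA : (m : ℝ) * (w + 1) ^ t ≤ ((N : ℝ) ^ (α * δ / 2)) ^ Q.card := by
    have e1 : (w : ℝ) + 1 ≤ (N : ℝ) ^ 2 := by
      have h2 : (4 : ℝ) * k + 1 ≤ N := by exact_mod_cast hN9
      have h3 : (w : ℝ) ≤ 4 * k * N := hwu.trans (mul_le_mul_of_nonneg_left hXN (by positivity))
      nlinarith
    calc (m : ℝ) * (w + 1) ^ t ≤ N * ((N : ℝ) ^ 2) ^ t :=
          mul_le_mul hmN (pow_le_pow_left₀ (by positivity) e1 t) (by positivity) hN0.le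
      _ = (N : ℝ) ^ ((2 * t + 1 : ℕ) : ℝ) := by
          rw [Real.rpow_natCast]
          ring
      _ ≤ (N : ℝ) ^ (α * δ / 2 * Q.card) := Real.rpow_le_rpow_of_exponent_le hN1 h2t
      _ = _ := by rw [Real.rpow_mul hN0.le, Real.rpow_natCast]
  have hB : ((t : ℝ) ^ c / Q.card) ^ (1 / (c - 1)) ≤
      (8 * (k : ℝ)) ^ (c / (c - 1)) * (N : ℝ) ^ (α - (c * ε - κ) / (c - 1)) := by
    have e1 : (t : ℝ) ^ c / Q.card ≤ (8 * (k : ℝ)) ^ c * (N : ℝ) ^ (c * (α - ε) - (α - κ)) := by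
      rw [div_le_iff₀ hq0]
      calc (t : ℝ) ^ c ≤ (8 * k * (N : ℝ) ^ (α - ε)) ^ c :=
            Real.rpow_le_rpow (Nat.cast_nonneg _) htu (by linarith)
        _ = (8 * (k : ℝ)) ^ c * (N : ℝ) ^ (c * (α - ε) - (α - κ)) * (N : ℝ) ^ (α - κ) := by
            rw [Real.mul_rpow (by positivity) (by positivity), ← Real.rpow_mul hN0.le, mul_assoc,
              ← Real.rpow_add hN0]
            ring_nf
        _ ≤ _ := mul_le_mul_of_nonneg_left hk (by positivity)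
    refine (Real.rpow_le_rpow (by positivity) e1 (by positivity)).trans (le_of_eq ?_)
    rw [Real.mul_rpow (by positivity) (by positivity), ← Real.rpow_mul (by positivity),
      ← Real.rpow_mul hN0.le]
    congr 2
    · ring
    · field_simp
      ring
  have hαθ : α * θ = α - (c * ε - κ) / (c - 1) + α * δ := by
    rw [hθ]
    field_simp
  have hC : ((2 : ℝ) ^ (-|θ|) * X ^ θ) ^ Q.card ≤ (∏ q ∈ Q, (q : ℝ)) ^ θ := by
    rw [← Real.finsetProd_rpow _ _ (fun _ _ => Nat.cast_nonneg _), ← prod_const]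
    refine prod_le_prod (fun _ _ => by positivity) fun q hq => ?_
    have h2 := hQ q hq
    rw [← hX] at h2
    exact rpow_lower (by linarith) h2.1 h2.2
  refine le_trans ?_ hC
  obtain ⟨Z, hZ⟩ : ∃ Z : ℝ, Z = (8 * (k : ℝ)) ^ (c / (c - 1)) := ⟨_, rfl⟩
  have hZ0 : 0 < Z := by rw [hZ]; positivity
  rw [← hZ] at hB hE4
  calc (m : ℝ) * (w + 1) ^ t * (((t : ℝ) ^ c / Q.card) ^ (1 / (c - 1))) ^ Q.card
      ≤ ((N : ℝ) ^ (α * δ / 2)) ^ Q.card *
          (Z * (N : ℝ) ^ (α - (c * ε - κ) / (c - 1))) ^ Q.card :=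
        mul_le_mul hA (pow_le_pow_left₀ (by positivity) hB _) (by positivity) (by positivity)
    _ = ((N : ℝ) ^ (α * δ / 2) * (Z * (N : ℝ) ^ (α - (c * ε - κ) / (c - 1)))) ^ Q.card :=
        (mul_pow _ _ _).symm
    _ ≤ _ := by
        refine pow_le_pow_left₀ (by positivity) ?_ _
        have e1 : X ^ θ = (N : ℝ) ^ (α - (c * ε - κ) / (c - 1)) *
            ((N : ℝ) ^ (α * δ / 2) * (N : ℝ) ^ (α * δ / 2)) := by
          rw [hX, ← Real.rpow_mul hN0.le, hαθ, ← Real.rpow_add hN0, ← Real.rpow_add hN0]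
          ring_nf
        have e2 : (2 : ℝ) ^ (-|θ|) * 2 ^ |θ| = 1 := by
          rw [← Real.rpow_add (by norm_num)]
          simp
        rw [e1]
        calc (N : ℝ) ^ (α * δ / 2) * (Z * (N : ℝ) ^ (α - (c * ε - κ) / (c - 1)))
            = (2 : ℝ) ^ (-|θ|) * ((N : ℝ) ^ (α - (c * ε - κ) / (c - 1)) * ((N : ℝ) ^ (α * δ / 2) *
                (Z * 2 ^ |θ|))) := by
              calc (N : ℝ) ^ (α * δ / 2) * (Z * (N : ℝ) ^ (α - (c * ε - κ) / (c - 1))) =
                  ((2 : ℝ) ^ (-|θ|) * 2 ^ |θ|) * ((N : ℝ) ^ (α * δ / 2) *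
                    (Z * (N : ℝ) ^ (α - (c * ε - κ) / (c - 1)))) := by rw [e2, one_mul]
                _ = _ := by ring
          _ ≤ _ := by
              refine mul_le_mul_of_nonneg_left (mul_le_mul_of_nonneg_left
                (mul_le_mul_of_nonneg_left hE4 (by positivity)) (by positivity)) (by positivity)

/-- the known sums-differences exponents -/
theorem exists_SD {c : ℝ} (hc : 3 / 2 ≤ c) (hq : 0 < 7 * c ^ 4 - 6 * c ^ 3 - 21 * c ^ 2 + 24 * c - 8) :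
    ∃ k, SD k c := by
  obtain ⟨S, hS, h1⟩ := Pool.Agent.X163.Ak.sdc_root hc hq
  exact Pool.Agent.Results.MP_169869_co.AlmostAllSlices.Aux2.slices_of_almostAll
    (Pool.Agent.Results.MP_169869_co.AlmostAllSlices.Aux2.almostAll_of_max (S := insertNone S)
      (by simpa using hS) (Pool.Agent.Results.MP_169869_co.GeometricMeans.Aux.max_of_sd h1))

theorem set_eq (Q : Finset ℕ) (P : (↥Q → ℕ) → Prop) [DecidablePred P] :
    {a : ↥Q → ℕ | (∀ q : ↥Q, a q < q.1) ∧ P a} = (((choices Q).filter P : Finset (↥Q → ℕ)) : Set _) := by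
  ext a
  simp only [Set.mem_ofPred_eq, coe_filter, choices, Fintype.mem_piFinset, mem_range]

theorem hits_le {α : ℝ} {N : ℕ} {Q : Finset ℕ} (hQ : ∀ q ∈ Q, InRange α N q) (a : ↥Q → ℕ)
    (b : (p : ℕ) → ZMod p) (hab : ∀ q : ↥Q, b q.1 = (a q : ZMod q.1)) :
    hits Q N a ≤ coveredCount α N b := by
  unfold hits coveredCount
  refine Set.ncard_le_ncard ?_ ((Set.finite_Icc 1 N).subset fun n hn => ⟨hn.1, hn.2.1⟩)
  rintro n ⟨h1, h2, q, hq⟩
  refine ⟨h1, h2, q.1, hQ _ q.2, ?_⟩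
  rw [hab, ← hq, ZMod.natCast_mod]

end Aux

/-- Let `0 < α < 1`, `ε > 0`, `δ > 0`, and let `3/2 ≤ c ≤ 2` be a number above the root
`1.66958684…` of `7 x ^ 4 - 6 x ^ 3 - 21 x ^ 2 + 24 x - 8`.

(1) For all large `N`, the number of the choices of residues for the primes `N ^ α ≤ p < 2 N ^ α`
which cover fewer than `N ^ (1 - ε)` integers of `{1, …, N}` is at most
`M ^ (1 - c ε / ((c - 1) α) + δ)`, where `M = ∏ p` is the number of all choices.

(2) Let `κ < ε` and `κ < α`. For all large `N` and all sets `Q` of at least `N ^ (α - κ)` such primes,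
the number of the choices of residues for the primes of `Q` which can be extended to a choice for all
primes in the range that covers fewer than `N ^ (1 - ε)` integers of `{1, …, N}` is at most
`M ^ (1 - (c ε - κ) / ((c - 1) α) + δ)`, where `M = ∏_{p ∈ Q} p`.

(3) The same for sets `Q` of arbitrary integers in `[N ^ α, 2 N ^ α)` and the integers covered by the
classes modulo the elements of `Q`. -/
theorem result (α : ℝ) (h0 : 0 < α) (h1 : α < 1) (ε : ℝ) (hε : 0 < ε) (δ : ℝ) (hδ : 0 < δ)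
    (c : ℝ) (hc : 3 / 2 ≤ c) (hc2 : c ≤ 2)
    (hq : 0 < 7 * c ^ 4 - 6 * c ^ 3 - 21 * c ^ 2 + 24 * c - 8) :
    (∃ N₀ : ℕ, ∀ N : ℕ, N₀ ≤ N →
      (Set.ncard {a : ↥(PR α N) → ℕ | (∀ p : ↥(PR α N), a p < p.1) ∧
        ∃ b : (p : ℕ) → ZMod p, (∀ p : ↥(PR α N), b p.1 = (a p : ZMod p.1)) ∧
          (coveredCount α N b : ℝ) < (N : ℝ) ^ (1 - ε)} : ℝ) ≤
        (∏ p ∈ PR α N, (p : ℝ)) ^ (1 - c * ε / ((c - 1) * α) + δ)) ∧
    ∀ κ : ℝ, κ < ε → κ < α → ∃ N₀ : ℕ, ∀ N : ℕ, N₀ ≤ N →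
      (∀ Q : Finset ℕ, (∀ p ∈ Q, InRange α N p) → (N : ℝ) ^ (α - κ) ≤ (Q.card : ℝ) →
        (Set.ncard {a : ↥Q → ℕ | (∀ p : ↥Q, a p < p.1) ∧
          ∃ b : (p : ℕ) → ZMod p, (∀ p : ↥Q, b p.1 = (a p : ZMod p.1)) ∧
            (coveredCount α N b : ℝ) < (N : ℝ) ^ (1 - ε)} : ℝ) ≤
          (∏ p ∈ Q, (p : ℝ)) ^ (1 - (c * ε - κ) / ((c - 1) * α) + δ)) ∧
      (∀ Q : Finset ℕ, (∀ q ∈ Q, (N : ℝ) ^ α ≤ q ∧ (q : ℝ) < 2 * (N : ℝ) ^ α) →
        (N : ℝ) ^ (α - κ) ≤ (Q.card : ℝ) →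
        (Set.ncard {a : ↥Q → ℕ | (∀ q : ↥Q, a q < q.1) ∧ (hits Q N a : ℝ) < (N : ℝ) ^ (1 - ε)} : ℝ) ≤
          (∏ q ∈ Q, (q : ℝ)) ^ (1 - (c * ε - κ) / ((c - 1) * α) + δ)) := by
  classical
  obtain ⟨k, hSD⟩ := Aux.exists_SD hc hq
  have hc1 : 1 < c := by linarith
  have hc0 : 0 < c - 1 := by linarith
  have key : ∀ κ δ : ℝ, 0 < δ → κ < ε → κ < α → ∀ᶠ N : ℕ in atTop,
      (∀ Q : Finset ℕ, (∀ p ∈ Q, InRange α N p) → (N : ℝ) ^ (α - κ) ≤ (Q.card : ℝ) →
        (Set.ncard {a : ↥Q → ℕ | (∀ p : ↥Q, a p < p.1) ∧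
          ∃ b : (p : ℕ) → ZMod p, (∀ p : ↥Q, b p.1 = (a p : ZMod p.1)) ∧
            (coveredCount α N b : ℝ) < (N : ℝ) ^ (1 - ε)} : ℝ) ≤
          (∏ p ∈ Q, (p : ℝ)) ^ (1 - (c * ε - κ) / ((c - 1) * α) + δ)) ∧
      (∀ Q : Finset ℕ, (∀ q ∈ Q, (N : ℝ) ^ α ≤ q ∧ (q : ℝ) < 2 * (N : ℝ) ^ α) →
        (N : ℝ) ^ (α - κ) ≤ (Q.card : ℝ) →
        (Set.ncard {a : ↥Q → ℕ | (∀ q : ↥Q, a q < q.1) ∧ (hits Q N a : ℝ) < (N : ℝ) ^ (1 - ε)} : ℝ) ≤
          (∏ q ∈ Q, (q : ℝ)) ^ (1 - (c * ε - κ) / ((c - 1) * α) + δ)) := by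
    intro κ δ hδ hκε hκα
    filter_upwards [Aux.rare hc1 hc2 hSD h0 h1 hκε hκα hδ] with N hN
    refine ⟨fun Q hQ hk => ?_, fun Q hQ hk => ?_⟩
    · rw [Aux.set_eq, Set.ncard_coe_finset]
      refine le_trans ?_ (hN Q (fun q hq => ⟨(hQ q hq).2.1, (hQ q hq).2.2⟩) hk)
      have hsub : (choices Q).filter (fun a => ∃ b : (p : ℕ) → ZMod p,
          (∀ p : ↥Q, b p.1 = (a p : ZMod p.1)) ∧ (coveredCount α N b : ℝ) < (N : ℝ) ^ (1 - ε)) ⊆
          (choices Q).filter (fun a => (hits Q N a : ℝ) < (N : ℝ) ^ (1 - ε)) := by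
        intro a ha
        rw [mem_filter] at ha ⊢
        obtain ⟨h2, b, h3, h4⟩ := ha
        refine ⟨h2, lt_of_le_of_lt ?_ h4⟩
        exact_mod_cast Aux.hits_le hQ a b h3
      exact_mod_cast card_le_card hsub
    · rw [Aux.set_eq, Set.ncard_coe_finset]
      exact hN Q hQ hk
  refine ⟨?_, fun κ hκε hκα => eventually_atTop.1 (key κ δ hδ hκε hκα)⟩
  -- all primes
  obtain ⟨κ, hκ⟩ : ∃ κ, κ = min ((c - 1) * α * δ / 2) (min (ε / 2) (α / 2)) := ⟨_, rfl⟩
  have hκ0 : 0 < κ := by rw [hκ]; exact lt_min (by positivity) (lt_min (by linarith) (by linarith))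
  have hκ1 : κ ≤ (c - 1) * α * δ / 2 := by rw [hκ]; exact min_le_left _ _
  have hκ2 : κ ≤ ε / 2 := by rw [hκ]; exact (min_le_right _ _).trans (min_le_left _ _)
  have hκ3 : κ ≤ α / 2 := by rw [hκ]; exact (min_le_right _ _).trans (min_le_right _ _)
  refine eventually_atTop.1 ?_
  filter_upwards [key κ (δ / 2) (by linarith) (by linarith) (by linarith),
    PR_lower h0 hκ0 (by linarith)] with N hN hPR
  refine (hN.1 (PR α N) (fun p hp => mem_PR.1 hp) hPR).trans ?_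
  refine Real.rpow_le_rpow_of_exponent_le ?_ ?_
  · have h2 : (1 : ℝ) = ∏ p ∈ PR α N, (1 : ℝ) := by simp
    rw [h2]
    refine prod_le_prod (fun _ _ => by norm_num) fun p hp => ?_
    exact_mod_cast (mem_PR.1 hp).1.one_lt.le
  · have h2 : (c * ε - κ) / ((c - 1) * α) = c * ε / ((c - 1) * α) - κ / ((c - 1) * α) := by ring
    have h3 : κ / ((c - 1) * α) ≤ δ / 2 := by
      rw [div_le_iff₀ (by positivity)]
      linarith
    linarith

end Pool.Agent.Results.MP_bb5cc8_nt.RareBadChoices
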